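import Pool.Agent.Helper841_BS.Core

/-!
# The distribution, Eve's variable and the single-letter channel
-/

set_option autoImplicit false

namespace Pool.Agent.Helper841_BS

/-- `K` is a stochastic map from `A` to the finite set `B`. -/
def IsKernel {A B : Type} [Fintype B] (K : A → B → ℝ) : Prop :=
  (∀ a b, 0 ≤ K a b) ∧ ∀ a, ∑ b, K a b = 1

/-- The unnormalised weight `w(x, y)`. -/
noncomputable def w (a : ℝ) (x y : Fin 4) : ℝ :=
  if x.val < 2 ∧ y.val < 2 then 1/8
  else if 2 ≤ x.val ∧ 2 ≤ y.val then (if x = y then 1/4 else 0)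
  else a

/-- `P(X = x, Y = y)`. -/
noncomputable def P (a : ℝ) (x y : Fin 4) : ℝ := w a x y / (1 + 8 * a)

/-- The values of Eve's variable: one of the symbols `0`, `1`, or a pair. -/
abbrev ZT : Type := Fin 2 ⊕ (Fin 4 × Fin 4)

/-- Eve's variable `Z` as a function of `(X, Y)`. -/
def Z (x y : Fin 4) : ZT :=
  if x.val < 2 ∧ y.val < 2 then Sum.inl ⟨(x.val + y.val) % 2, Nat.mod_lt _ (by norm_num)⟩
  else if 2 ≤ x.val ∧ 2 ≤ y.val then Sum.inl ⟨x.val % 2, Nat.mod_lt _ (by norm_num)⟩
  else Sum.inr (x, y)

/-- the single-letter channel -/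
noncomputable def chan (a μ : ℝ) (r r' : Fin 4 → Fin 4 → ℝ) : ZT → ZT → ℝ
  | Sum.inl i, Sum.inl j =>
      if i = 0 then (if j = 0 then 1 else 0) else (if j = 0 then μ else 1 - μ)
  | Sum.inl _, Sum.inr _ => 0
  | Sum.inr p, Sum.inl j => if j = 0 then r p.1 p.2 / a else r' p.1 p.2 / a
  | Sum.inr p, Sum.inr q => if p = q then 1 - (r p.1 p.2 + r' p.1 p.2) / a else 0

theorem chan_isKernel {a μ : ℝ} {r r' : Fin 4 → Fin 4 → ℝ} (ha : 3/4 ≤ a) (hμ : 0 ≤ μ ∧ μ ≤ 1)
    (hr : Box r) (hr' : Box r') : IsKernel (chan a μ r r') := by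
  have ha0 : 0 < a := by linarith
  constructor
  · rintro (i | p) (j | q)
    · simp only [chan]
      split_ifs
      · norm_num
      · norm_num
      · exact hμ.1
      · linarith [hμ.2]
    · exact le_rfl
    · simp only [chan]
      split_ifs
      · exact div_nonneg (hr.1 _ _) ha0.le
      · exact div_nonneg (hr'.1 _ _) ha0.le
    · simp only [chan]
      split_ifs
      · have h1 : (r p.1 p.2 + r' p.1 p.2) / a ≤ 1 := by
          rw [div_le_one ha0]
          have := hr.2.1 p.1 p.2
          have := hr'.2.1 p.1 p.2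
          linarith
        linarith
      · exact le_rfl
  · rintro (i | p)
    · rw [Fintype.sum_sum_type]
      simp only [chan, Fin.sum_univ_two, Finset.sum_const_zero, add_zero]
      by_cases hi : i = 0
      · simp [hi]
      · simp [hi]
    · rw [Fintype.sum_sum_type]
      simp only [chan, Fin.sum_univ_two]
      rw [Finset.sum_ite_eq]
      simp
      field_simp
      ring

theorem exists_channel {a : ℝ} (ha : 3/4 ≤ a) (φ ψ : Fin 4 → ℝ) :
    ∃ κ : ZT → ZT → ℝ, IsKernel κ ∧ ∀ s, cv (fun x y => w a x y * κ (Z x y) s) φ ψ = 0 := by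
  obtain ⟨μ, r, r', hμ, hr, hr', h0, h1⟩ := core φ ψ
  have ha0 : a ≠ 0 := by linarith
  refine ⟨chan a μ r r', chan_isKernel ha hμ hr hr', ?_⟩
  rintro (j | q)
  · by_cases hj : j = 0
    · subst hj
      rw [← h0]
      congr 1
      funext x y
      have hb := hr.2.2 x y
      fin_cases x <;> fin_cases y <;>
        simp [w, Z, chan, M0, M1, Blk] at hb ⊢ <;> first | linarith | field_simp
    · have hj1 : j = 1 := by omega
      subst hj1
      rw [← h1]
      congr 1
      funext x y
      have hb := hr'.2.2 x y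
      fin_cases x <;> fin_cases y <;>
        simp [w, Z, chan, M0, M1, Blk] at hb ⊢ <;> first | linarith | field_simp
  · -- a single atom
    obtain ⟨t, ht⟩ : ∃ t : ℝ, (fun x y => w a x y * chan a μ r r' (Z x y) (Sum.inr q)) =
        fun x y => if (x, y) = q then t else 0 := by
      refine ⟨w a q.1 q.2 * chan a μ r r' (Z q.1 q.2) (Sum.inr q), ?_⟩
      funext x y
      by_cases h : (x, y) = q
      · rw [if_pos h, ← h]
      · rw [if_neg h]
        unfold Z
        split_ifs
        · simp [chan]
        · simp [chan]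
        · simp [chan, h]
    rw [ht]
    obtain ⟨q1, q2⟩ := q
    have key : ∀ F : Fin 4 → Fin 4 → ℝ,
        ∑ x, ∑ y, (if (x, y) = (q1, q2) then t else 0) * F x y = t * F q1 q2 := by
      intro F
      rw [Finset.sum_eq_single q1, Finset.sum_eq_single q2]
      · simp
      · intro y _ hy
        simp [hy]
      · simp
      · intro x _ hx
        apply Finset.sum_eq_zero
        intro y _
        simp [hx]
      · simp
    have k1 := key (fun _ _ => 1)
    simp only [mul_one] at k1
    unfold cv
    rw [k1, key (fun x y => φ x * ψ y), key (fun x _ => φ x), key (fun _ y => ψ y)]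
    ring

end Pool.Agent.Helper841_BS
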