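import Mathlib

/-!
# The algebraic core: splitting two three-point masses into uncorrelated groups

For all real functions `f, g` on four points, the two composite atoms `M0`, `M1` can be completed by
off-block weights (at most `3/8` each) to weights of covariance zero, either separately or after
merging them.
-/

set_option autoImplicit false

namespace Pool.Agent.Helper841_BS

/-- unnormalised covariance of `f` and `g` for the weight `W` -/
def cv (W : Fin 4 → Fin 4 → ℝ) (f g : Fin 4 → ℝ) : ℝ :=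
  (∑ x, ∑ y, W x y) * (∑ x, ∑ y, W x y * (f x * g y)) -
    (∑ x, ∑ y, W x y * f x) * (∑ x, ∑ y, W x y * g y)

/-- the weight of the event that Eve sees `0` -/
noncomputable def M0 (x y : Fin 4) : ℝ :=
  (![![1/8, 0, 0, 0], ![0, 1/8, 0, 0], ![0, 0, 1/4, 0], ![0, 0, 0, 0]] : Fin 4 → Fin 4 → ℝ) x y

/-- the weight of the event that Eve sees `1` -/
noncomputable def M1 (x y : Fin 4) : ℝ :=
  (![![0, 1/8, 0, 0], ![1/8, 0, 0, 0], ![0, 0, 0, 0], ![0, 0, 0, 1/4]] : Fin 4 → Fin 4 → ℝ) x y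

/-- weights of the pairs off the blocks -/
def rs (p02 p03 p12 p13 p20 p21 p30 p31 : ℝ) (x y : Fin 4) : ℝ :=
  (![![0, 0, p02, p03], ![0, 0, p12, p13], ![p20, p21, 0, 0], ![p30, p31, 0, 0]] :
    Fin 4 → Fin 4 → ℝ) x y

/-- both coordinates in `{0, 1}` or both in `{2, 3}` -/
def Blk (x y : Fin 4) : Prop := (x.val < 2 ↔ y.val < 2)

instance (x y : Fin 4) : Decidable (Blk x y) := by unfold Blk; infer_instance

/-- `r` is a weight off the blocks, with values at most `3/8` -/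
def Box (r : Fin 4 → Fin 4 → ℝ) : Prop :=
  (∀ x y, 0 ≤ r x y) ∧ (∀ x y, r x y ≤ 3/8) ∧ ∀ x y, Blk x y → r x y = 0

theorem box_rs {p02 p03 p12 p13 p20 p21 p30 p31 : ℝ}
    (h02 : 0 ≤ p02 ∧ p02 ≤ 3/8) (h03 : 0 ≤ p03 ∧ p03 ≤ 3/8) (h12 : 0 ≤ p12 ∧ p12 ≤ 3/8)
    (h13 : 0 ≤ p13 ∧ p13 ≤ 3/8) (h20 : 0 ≤ p20 ∧ p20 ≤ 3/8) (h21 : 0 ≤ p21 ∧ p21 ≤ 3/8)
    (h30 : 0 ≤ p30 ∧ p30 ≤ 3/8) (h31 : 0 ≤ p31 ∧ p31 ≤ 3/8) :
    Box (rs p02 p03 p12 p13 p20 p21 p30 p31) := by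
  refine ⟨?_, ?_, ?_⟩
  · intro x y
    fin_cases x <;> fin_cases y <;> simp [rs, h02.1, h03.1, h12.1, h13.1, h20.1, h21.1, h30.1, h31.1]
  · intro x y
    fin_cases x <;> fin_cases y <;> simp [rs] <;> norm_num <;> linarith [h02.2, h03.2, h12.2,
      h13.2, h20.2, h21.2, h30.2, h31.2]
  · intro x y h
    fin_cases x <;> fin_cases y <;> simp [rs, Blk] at h ⊢

/-- some completion of `M` has covariance `≤ 0` -/
def Neg (M : Fin 4 → Fin 4 → ℝ) (f g : Fin 4 → ℝ) : Prop :=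
  ∃ r, Box r ∧ cv (fun x y => M x y + r x y) f g ≤ 0

/-- some completion of `M` has covariance `≥ 0` -/
def Pos (M : Fin 4 → Fin 4 → ℝ) (f g : Fin 4 → ℝ) : Prop :=
  ∃ r, Box r ∧ 0 ≤ cv (fun x y => M x y + r x y) f g

/-- some completion of `M` has covariance `0` -/
def Zer (M : Fin 4 → Fin 4 → ℝ) (f g : Fin 4 → ℝ) : Prop :=
  ∃ r, Box r ∧ cv (fun x y => M x y + r x y) f g = 0

theorem zer_of_neg_pos {M : Fin 4 → Fin 4 → ℝ} {f g : Fin 4 → ℝ} (hn : Neg M f g)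
    (hp : Pos M f g) : Zer M f g := by
  obtain ⟨r, hr, h1⟩ := hn
  obtain ⟨r', hr', h2⟩ := hp
  let F : ℝ → ℝ := fun t => cv (fun x y => M x y + ((1 - t) * r x y + t * r' x y)) f g
  have hF : Continuous F := by
    unfold F cv
    fun_prop
  have h0 : F 0 = cv (fun x y => M x y + r x y) f g := by simp [F]
  have h1' : F 1 = cv (fun x y => M x y + r' x y) f g := by simp [F]
  have h3 : (0 : ℝ) ∈ Set.Icc (F 0) (F 1) := ⟨by rw [h0]; exact h1, by rw [h1']; exact h2⟩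
  obtain ⟨t, ht, ht0⟩ := intermediate_value_Icc (by norm_num : (0 : ℝ) ≤ 1) hF.continuousOn h3
  refine ⟨fun x y => (1 - t) * r x y + t * r' x y, ⟨?_, ?_, ?_⟩, ht0⟩
  · intro x y
    have := hr.1 x y
    have := hr'.1 x y
    have := ht.1
    have : 0 ≤ 1 - t := by linarith [ht.2]
    positivity
  · intro x y
    have e1 := mul_le_mul_of_nonneg_left (hr.2.1 x y) (by linarith [ht.2] : (0 : ℝ) ≤ 1 - t)
    have e2 := mul_le_mul_of_nonneg_left (hr'.2.1 x y) ht.1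
    show (1 - t) * r x y + t * r' x y ≤ 3/8
    linarith
  · intro x y h
    show (1 - t) * r x y + t * r' x y = 0
    rw [hr.2.2 x y h, hr'.2.2 x y h]
    ring

/-! ### Symmetries -/

theorem cv_perm (W : Fin 4 → Fin 4 → ℝ) (f g : Fin 4 → ℝ) (σ τ : Equiv.Perm (Fin 4)) :
    cv (fun x y => W (σ x) (τ y)) (fun x => f (σ x)) (fun y => g (τ y)) = cv W f g := by
  have key : ∀ F : Fin 4 → Fin 4 → ℝ, ∑ x, ∑ y, F (σ x) (τ y) = ∑ x, ∑ y, F x y := by
    intro F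
    rw [Equiv.sum_comp σ (fun x => ∑ y, F x (τ y))]
    apply Finset.sum_congr rfl
    intro x _
    exact Equiv.sum_comp τ (fun y => F x y)
  unfold cv
  rw [key (fun x y => W x y), key (fun x y => W x y * (f x * g y)),
    key (fun x y => W x y * f x), key (fun x y => W x y * g y)]

theorem cv_swap (W : Fin 4 → Fin 4 → ℝ) (f g : Fin 4 → ℝ) :
    cv (fun x y => W y x) g f = cv W f g := by
  unfold cv
  rw [Finset.sum_comm (f := fun x y => W y x), Finset.sum_comm (f := fun x y => W y x * (g x * f y)),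
    Finset.sum_comm (f := fun x y => W y x * g x), Finset.sum_comm (f := fun x y => W y x * f y)]
  have e : (∑ y, ∑ x, W y x * (g x * f y)) = ∑ x, ∑ y, W x y * (f x * g y) := by
    apply Finset.sum_congr rfl
    intro x _
    apply Finset.sum_congr rfl
    intro y _
    ring
  rw [e, mul_comm (∑ y, ∑ x, W y x * g x)]

theorem cv_neg_left (W : Fin 4 → Fin 4 → ℝ) (f g : Fin 4 → ℝ) :
    cv W (fun x => - f x) g = - cv W f g := by
  unfold cv
  simp only [neg_mul, mul_neg, Finset.sum_neg_distrib]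
  ring

theorem cv_neg_right (W : Fin 4 → Fin 4 → ℝ) (f g : Fin 4 → ℝ) :
    cv W f (fun x => - g x) = - cv W f g := by
  unfold cv
  simp only [mul_neg, Finset.sum_neg_distrib]
  ring

/-- exchange of `0` and `1` -/
def s01 : Equiv.Perm (Fin 4) := Equiv.swap 0 1
/-- exchange of `2` and `3` -/
def s23 : Equiv.Perm (Fin 4) := Equiv.swap 2 3

@[simp] theorem s01_0 : s01 0 = 1 := by decide
@[simp] theorem s01_1 : s01 1 = 0 := by decide
@[simp] theorem s01_2 : s01 2 = 2 := by decide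
@[simp] theorem s01_3 : s01 3 = 3 := by decide
@[simp] theorem s23_0 : s23 0 = 0 := by decide
@[simp] theorem s23_1 : s23 1 = 1 := by decide
@[simp] theorem s23_2 : s23 2 = 3 := by decide
@[simp] theorem s23_3 : s23 3 = 2 := by decide

theorem blk_s01 (x y : Fin 4) (h : Blk x y) : Blk (s01 x) (s01 y) := by
  revert h; revert x y; decide

theorem blk_s0123 (x y : Fin 4) (h : Blk x y) : Blk (s23 (s01 x)) (s23 y) := by
  revert h; revert x y; decide

theorem M0_s01 (x y : Fin 4) : M0 (s01 x) (s01 y) = M0 x y := by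
  fin_cases x <;> fin_cases y <;> simp [M0]

theorem M0_symm (x y : Fin 4) : M0 y x = M0 x y := by
  fin_cases x <;> fin_cases y <;> simp [M0]

theorem M1_eq (x y : Fin 4) : M1 x y = M0 (s23 (s01 x)) (s23 y) := by
  fin_cases x <;> fin_cases y <;> simp [M0, M1]

theorem neg_mirror {f g : Fin 4 → ℝ}
    (h : Neg M0 (fun x => - f (s01 x)) (fun y => - g (s01 y))) : Neg M0 f g := by
  obtain ⟨r, hr, h1⟩ := h
  refine ⟨fun x y => r (s01 x) (s01 y), ⟨fun x y => hr.1 _ _, fun x y => hr.2.1 _ _,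
    fun x y hb => hr.2.2 _ _ (blk_s01 x y hb)⟩, ?_⟩
  rw [cv_neg_left, cv_neg_right, neg_neg] at h1
  have e := cv_perm (fun x y => M0 x y + r (s01 x) (s01 y)) f g s01 s01
  have hss : ∀ x, s01 (s01 x) = x := by decide
  have e2 : (fun x y => M0 (s01 x) (s01 y) + r (s01 (s01 x)) (s01 (s01 y))) =
      fun x y => M0 x y + r x y := by
    funext x y
    rw [M0_s01, hss, hss]
  rw [e2] at e
  rw [← e]
  exact h1

theorem neg_swap {f g : Fin 4 → ℝ} (h : Neg M0 g f) : Neg M0 f g := by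
  obtain ⟨r, hr, h1⟩ := h
  refine ⟨fun x y => r y x, ⟨fun x y => hr.1 _ _, fun x y => hr.2.1 _ _,
    fun x y hb => hr.2.2 _ _ hb.symm⟩, ?_⟩
  have e := cv_swap (fun x y => M0 x y + r y x) f g
  have e2 : (fun x y => M0 y x + r x y) = fun x y => M0 x y + r x y := by
    funext x y
    rw [M0_symm]
  rw [e2] at e
  rw [← e]
  exact h1

theorem zer_neg_left {M : Fin 4 → Fin 4 → ℝ} {f g : Fin 4 → ℝ}
    (h : Zer M (fun x => - f x) g) : Zer M f g := by
  obtain ⟨r, hr, h1⟩ := h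
  rw [cv_neg_left] at h1
  exact ⟨r, hr, by linarith⟩

theorem zer_neg_right {M : Fin 4 → Fin 4 → ℝ} {f g : Fin 4 → ℝ}
    (h : Zer M f (fun x => - g x)) : Zer M f g := by
  obtain ⟨r, hr, h1⟩ := h
  rw [cv_neg_right] at h1
  exact ⟨r, hr, by linarith⟩

theorem zer_M1 {f g : Fin 4 → ℝ}
    (h : Zer M0 (fun x => f (s01 (s23 x))) (fun y => g (s23 y))) : Zer M1 f g := by
  obtain ⟨r, hr, h1⟩ := h
  refine ⟨fun x y => r (s23 (s01 x)) (s23 y), ⟨fun x y => hr.1 _ _, fun x y => hr.2.1 _ _,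
    fun x y hb => hr.2.2 _ _ (blk_s0123 x y hb)⟩, ?_⟩
  have e := cv_perm (fun x y => M0 x y + r x y) (fun x => f (s01 (s23 x))) (fun y => g (s23 y))
    (s01.trans s23) s23
  have h2 : ∀ x, s01 (s23 ((s01.trans s23) x)) = x := by decide
  have h3 : ∀ x, s23 (s23 x) = x := by decide
  simp only [h2, h3] at e
  rw [h1] at e
  rw [← e]
  congr 1
  funext x y
  rw [M1_eq]
  rfl

/-! ### Explicit completions -/

/-- expansion of the covariance for explicit off-block weights -/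
theorem cv_M0 (f g : Fin 4 → ℝ) (p02 p03 p12 p13 p20 p21 p30 p31 : ℝ) :
    cv (fun x y => M0 x y + rs p02 p03 p12 p13 p20 p21 p30 p31 x y) f g =
      (1/8 + 1/8 + 1/4 + p02 + p03 + p12 + p13 + p20 + p21 + p30 + p31) *
        (1/8 * (f 0 * g 0) + 1/8 * (f 1 * g 1) + 1/4 * (f 2 * g 2) + p02 * (f 0 * g 2) +
          p03 * (f 0 * g 3) + p12 * (f 1 * g 2) + p13 * (f 1 * g 3) + p20 * (f 2 * g 0) +
          p21 * (f 2 * g 1) + p30 * (f 3 * g 0) + p31 * (f 3 * g 1)) -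
      ((1/8 + p02 + p03) * f 0 + (1/8 + p12 + p13) * f 1 + (1/4 + p20 + p21) * f 2 +
          (p30 + p31) * f 3) *
        ((1/8 + p20 + p30) * g 0 + (1/8 + p21 + p31) * g 1 + (1/4 + p02 + p12) * g 2 +
          (p03 + p13) * g 3) := by
  unfold cv
  simp only [Fin.sum_univ_four]
  simp [M0, rs]
  ring

theorem pos_main (f g : Fin 4 → ℝ) (h1 : f 1 ≤ f 0) (h2 : g 1 ≤ g 0) : Pos M0 f g := by
  refine ⟨rs (1/8) 0 (1/8) 0 (1/8) (1/8) 0 0, box_rs (by norm_num) (by norm_num) (by norm_num)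
    (by norm_num) (by norm_num) (by norm_num) (by norm_num) (by norm_num), ?_⟩
  rw [cv_M0]
  have h := mul_nonneg (sub_nonneg.mpr h1) (sub_nonneg.mpr h2)
  linarith

/-- case `a0 ≥ 0`, `e ≥ Δβ` -/
theorem neg_II (f g : Fin 4 → ℝ) (h1 : f 1 ≤ f 0) (h2 : g 1 ≤ g 0) (he : g 0 - g 1 ≤ g 2 - g 3)
    (ha : f 2 ≤ f 0) : Neg M0 f g := by
  refine ⟨rs 0 (1/4) (1/4) 0 (1/16) (1/16) 0 0, box_rs (by norm_num) (by norm_num) (by norm_num)
    (by norm_num) (by norm_num) (by norm_num) (by norm_num) (by norm_num), ?_⟩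
  rw [cv_M0]
  have e1 := mul_nonneg (sub_nonneg.mpr h1) (sub_nonneg.mpr h2)
  have e2 := mul_nonneg (sub_nonneg.mpr h1) (sub_nonneg.mpr he)
  have e3 := mul_nonneg (sub_nonneg.mpr ha) (by linarith : (0 : ℝ) ≤ g 2 - g 3)
  linarith

/-- case `a0 ≤ 0`, `b0 ≤ 0` -/
theorem neg_Ib (f g : Fin 4 → ℝ) (h1 : f 1 ≤ f 0) (h2 : g 1 ≤ g 0) (ha : f 0 ≤ f 2)
    (hb : g 0 ≤ g 2) : Neg M0 f g := by
  refine ⟨rs (3/8) 0 (3/8) 0 (3/8) (3/8) 0 0, box_rs (by norm_num) (by norm_num) (by norm_num)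
    (by norm_num) (by norm_num) (by norm_num) (by norm_num) (by norm_num), ?_⟩
  rw [cv_M0]
  have e1 := mul_nonneg (sub_nonneg.mpr ha) (by linarith : (0 : ℝ) ≤ 2 * g 2 - g 0 - g 1)
  have e2 := mul_nonneg (sub_nonneg.mpr h1) (sub_nonneg.mpr hb)
  linarith

/-- case `a0 ≤ 0`, `b1 ≥ 0`, `e ≥ Δβ` -/
theorem neg_Ia (f g : Fin 4 → ℝ) (h1 : f 1 ≤ f 0) (h2 : g 1 ≤ g 0) (he : g 0 - g 1 ≤ g 2 - g 3)
    (ha : f 0 ≤ f 2) (hb : g 2 ≤ g 1) : Neg M0 f g := by
  have e1 := mul_nonneg (sub_nonneg.mpr h1) (sub_nonneg.mpr h2)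
  have e4 := mul_nonneg (sub_nonneg.mpr h1) (sub_nonneg.mpr hb)
  have e5 := mul_nonneg (sub_nonneg.mpr ha) (sub_nonneg.mpr h2)
  have e6 := mul_nonneg (sub_nonneg.mpr ha) (sub_nonneg.mpr hb)
  rcases le_total (f 0 - f 1) (2 * (f 2 - f 0)) with h | h
  · refine ⟨rs 0 0 0 0 0 0 0 0, box_rs (by norm_num) (by norm_num) (by norm_num)
      (by norm_num) (by norm_num) (by norm_num) (by norm_num) (by norm_num), ?_⟩
    rw [cv_M0]
    have e2 := mul_nonneg (sub_nonneg.mpr h) (sub_nonneg.mpr h2)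
    linarith
  · refine ⟨rs 0 (1/4) (1/4) 0 0 0 0 0, box_rs (by norm_num) (by norm_num) (by norm_num)
      (by norm_num) (by norm_num) (by norm_num) (by norm_num) (by norm_num), ?_⟩
    rw [cv_M0]
    have e2 := mul_nonneg (sub_nonneg.mpr h) (by linarith : (0 : ℝ) ≤ g 2 - g 3)
    have e3 := mul_nonneg (sub_nonneg.mpr h1) (sub_nonneg.mpr he)
    linarith

theorem neg_e (f g : Fin 4 → ℝ) (h1 : f 1 ≤ f 0) (h2 : g 1 ≤ g 0) (he : g 0 - g 1 ≤ g 2 - g 3)
    (hc : f 0 - f 1 ≤ |f 2 - f 3|) : Neg M0 f g := by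
  rcases le_total (f 2) (f 0) with ha | ha
  · exact neg_II f g h1 h2 he ha
  rcases le_total (g 0) (g 2) with hb | hb
  · exact neg_Ib f g h1 h2 ha hb
  rcases le_total (g 2) (g 1) with hb1 | hb1
  · exact neg_Ia f g h1 h2 he ha hb1
  apply neg_swap
  rcases le_abs.mp hc with hc' | hc'
  · exact neg_II g f h2 h1 hc' hb
  · apply neg_mirror
    apply neg_II
    · simp only [s01_0, s01_1]; linarith
    · simp only [s01_0, s01_1]; linarith
    · simp only [s01_0, s01_1, s01_2, s01_3]; linarith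
    · simp only [s01_0, s01_2]; linarith

theorem neg_main (f g : Fin 4 → ℝ) (h1 : f 1 ≤ f 0) (h2 : g 1 ≤ g 0)
    (he : g 0 - g 1 ≤ |g 2 - g 3|) (hc : f 0 - f 1 ≤ |f 2 - f 3|) : Neg M0 f g := by
  rcases le_abs.mp he with he' | he'
  · exact neg_e f g h1 h2 he' hc
  · apply neg_mirror
    apply neg_e
    · simp only [s01_0, s01_1]; linarith
    · simp only [s01_0, s01_1]; linarith
    · simp only [s01_0, s01_1, s01_2, s01_3]; linarith
    · simp only [s01_0, s01_1, s01_2, s01_3]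
      have : |(-f 2 - -f 3)| = |f 2 - f 3| := by
        rw [show -f 2 - -f 3 = -(f 2 - f 3) by ring, abs_neg]
      rw [this]; linarith

theorem zer_M0 (f g : Fin 4 → ℝ) (he : |g 0 - g 1| ≤ |g 2 - g 3|)
    (hc : |f 0 - f 1| ≤ |f 2 - f 3|) : Zer M0 f g := by
  -- both differences may be assumed nonnegative
  have key : ∀ f g : Fin 4 → ℝ, f 1 ≤ f 0 → g 1 ≤ g 0 → |g 0 - g 1| ≤ |g 2 - g 3| →
      |f 0 - f 1| ≤ |f 2 - f 3| → Zer M0 f g := by
    intro f g h1 h2 he hc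
    rw [abs_of_nonneg (sub_nonneg.mpr h1)] at hc
    rw [abs_of_nonneg (sub_nonneg.mpr h2)] at he
    exact zer_of_neg_pos (neg_main f g h1 h2 he hc) (pos_main f g h1 h2)
  have hn : ∀ u v : ℝ, |(-u) - (-v)| = |u - v| := by
    intro u v
    rw [show (-u) - (-v) = -(u - v) by ring, abs_neg]
  have key2 : ∀ f g : Fin 4 → ℝ, f 1 ≤ f 0 → |g 0 - g 1| ≤ |g 2 - g 3| →
      |f 0 - f 1| ≤ |f 2 - f 3| → Zer M0 f g := by
    intro f g h1 he hc
    rcases le_total (g 1) (g 0) with h2 | h2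
    · exact key f g h1 h2 he hc
    · exact zer_neg_right (key f _ h1 (by simpa using h2) (by rw [hn, hn]; exact he) hc)
  rcases le_total (f 1) (f 0) with h1 | h1
  · exact key2 f g h1 he hc
  · exact zer_neg_left (key2 _ g (by simpa using h1) he (by rw [hn, hn]; exact hc))

theorem zer_M1' (f g : Fin 4 → ℝ) (he : |g 0 - g 1| ≤ |g 2 - g 3|)
    (hc : |f 0 - f 1| ≤ |f 2 - f 3|) : Zer M1 f g := by
  apply zer_M1
  apply zer_M0
  · simp only [s23_0, s23_1, s23_2, s23_3]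
    rw [abs_sub_comm (g 3) (g 2)]
    exact he
  · simp only [s23_0, s23_1, s23_2, s23_3, s01_0, s01_1, s01_2, s01_3]
    rw [abs_sub_comm (f 1) (f 0), abs_sub_comm (f 3) (f 2)]
    exact hc

/-- expansion of the covariance for the merged weights -/
theorem cv_M01 (f g : Fin 4 → ℝ) (p02 p03 p12 p13 p20 p21 p30 p31 : ℝ) :
    cv (fun x y => (M0 x y + M1 x y) + rs p02 p03 p12 p13 p20 p21 p30 p31 x y) f g =
      (1/2 + 1/2 + p02 + p03 + p12 + p13 + p20 + p21 + p30 + p31) *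
        (1/8 * ((f 0 + f 1) * (g 0 + g 1)) + 1/4 * (f 2 * g 2) + 1/4 * (f 3 * g 3) +
          p02 * (f 0 * g 2) +
          p03 * (f 0 * g 3) + p12 * (f 1 * g 2) + p13 * (f 1 * g 3) + p20 * (f 2 * g 0) +
          p21 * (f 2 * g 1) + p30 * (f 3 * g 0) + p31 * (f 3 * g 1)) -
      ((1/4 + p02 + p03) * f 0 + (1/4 + p12 + p13) * f 1 + (1/4 + p20 + p21) * f 2 +
          (1/4 + p30 + p31) * f 3) *
        ((1/4 + p20 + p30) * g 0 + (1/4 + p21 + p31) * g 1 + (1/4 + p02 + p12) * g 2 +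
          (1/4 + p03 + p13) * g 3) := by
  unfold cv
  simp only [Fin.sum_univ_four]
  simp [M0, M1, rs]
  ring

/-- the quotient used to cancel the covariance -/
theorem exists_eta {u v : ℝ} (h : |u| ≤ |v|) : ∃ η : ℝ, |η| ≤ 1/8 ∧ η * v = - u / 8 := by
  by_cases hv : v = 0
  · subst hv
    have hu : u = 0 := by simpa using h
    exact ⟨0, by norm_num, by rw [hu]; ring⟩
  · refine ⟨- u / (8 * v), ?_, by field_simp⟩
    have hv' : 0 < |v| := abs_pos.mpr hv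
    rw [abs_div, abs_neg, abs_mul, abs_of_pos (by norm_num : (0 : ℝ) < 8), div_le_iff₀ (by positivity)]
    linarith

theorem zer_merged (f g : Fin 4 → ℝ)
    (h : |f 2 - f 3| ≤ |f 0 - f 1| ∨ |g 2 - g 3| ≤ |g 0 - g 1|) :
    Zer (fun x y => M0 x y + M1 x y) f g := by
  rcases h with h | h
  · obtain ⟨η, h1, h2⟩ := exists_eta h
    have h3 := abs_le.mp h1
    refine ⟨rs (1/8 + η) (1/8 - η) (1/8 - η) (1/8 + η) (1/8) (1/8) (1/8) (1/8),
      box_rs ?_ ?_ ?_ ?_ ?_ ?_ ?_ ?_, ?_⟩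
    all_goals try (constructor <;> linarith [h3.1, h3.2])
    rw [cv_M01]
    linear_combination 2 * (g 2 - g 3) * h2
  · obtain ⟨η, h1, h2⟩ := exists_eta h
    have h3 := abs_le.mp h1
    refine ⟨rs (1/8) (1/8) (1/8) (1/8) (1/8 + η) (1/8 - η) (1/8 - η) (1/8 + η),
      box_rs ?_ ?_ ?_ ?_ ?_ ?_ ?_ ?_, ?_⟩
    all_goals try (constructor <;> linarith [h3.1, h3.2])
    rw [cv_M01]
    linear_combination 2 * (f 2 - f 3) * h2

theorem box_zero : Box (fun _ _ => 0) :=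
  ⟨fun _ _ => le_rfl, fun _ _ => by norm_num, fun _ _ _ => rfl⟩

/-- the core statement -/
theorem core (f g : Fin 4 → ℝ) : ∃ (μ : ℝ) (r r' : Fin 4 → Fin 4 → ℝ), (0 ≤ μ ∧ μ ≤ 1) ∧
    Box r ∧ Box r' ∧ cv (fun x y => M0 x y + μ * M1 x y + r x y) f g = 0 ∧
      cv (fun x y => (1 - μ) * M1 x y + r' x y) f g = 0 := by
  by_cases h : |f 2 - f 3| ≤ |f 0 - f 1| ∨ |g 2 - g 3| ≤ |g 0 - g 1|
  · obtain ⟨r, hr, h1⟩ := zer_merged f g h
    refine ⟨1, r, fun _ _ => 0, ⟨by norm_num, le_rfl⟩, hr, box_zero, ?_, ?_⟩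
    · simpa using h1
    · simp [cv]
  · push Not at h
    obtain ⟨r, hr, h1⟩ := zer_M0 f g h.2.le h.1.le
    obtain ⟨r', hr', h2⟩ := zer_M1' f g h.2.le h.1.le
    refine ⟨0, r, r', ⟨le_rfl, by norm_num⟩, hr, hr', ?_, ?_⟩
    · simpa using h1
    · simpa using h2

end Pool.Agent.Helper841_BS
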